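import Pool.Agent.Q39.HB.Hankel

/-!
# Gaps in the coefficients of `V t / (e^t + 1)` modulo `p`
-/

set_option autoImplicit false

namespace Pool.Agent.Q140.REG

open Finset PowerSeries Pool.Agent.H332R2 Pool.Agent.Q39.HB

section general

variable {F : Type} [Field F]

/-- the coefficients at `a + 1, …, w` vanish -/
def Gap (a w : ℕ) (A : F⟦X⟧) : Prop := ∀ k, a < k → k ≤ w → coeff k A = 0

lemma Gap.congr {a w : ℕ} {A B : F⟦X⟧} (h : (X : F⟦X⟧) ^ (w + 1) ∣ A - B) (hB : Gap a w B) :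
    Gap a w A := by
  intro k h1 h2
  rw [X_pow_dvd_iff] at h
  have := h k (by omega)
  rw [map_sub, hB k h1 h2, sub_zero] at this
  exact this

lemma Gap.mono {a a' w : ℕ} {A : F⟦X⟧} (h : Gap a w A) (ha : a ≤ a') : Gap a' w A :=
  fun k h1 h2 => h k (by omega) h2

lemma Gap.add {a w : ℕ} {A B : F⟦X⟧} (hA : Gap a w A) (hB : Gap a w B) : Gap a w (A + B) := by
  intro k h1 h2
  rw [map_add, hA k h1 h2, hB k h1 h2, add_zero]

lemma Gap.sub {a w : ℕ} {A B : F⟦X⟧} (hA : Gap a w A) (hB : Gap a w B) : Gap a w (A - B) := by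
  intro k h1 h2
  rw [map_sub, hA k h1 h2, hB k h1 h2, sub_zero]

lemma Gap.natCast_mul {a w : ℕ} {A : F⟦X⟧} (m : ℕ) (hA : Gap a w A) :
    Gap a w ((m : F⟦X⟧) * A) := by
  intro k h1 h2
  have : (m : F⟦X⟧) = C (m : F) := by simp
  rw [this, coeff_C_mul, hA k h1 h2, mul_zero]

lemma Gap.of_natCast_mul {a w : ℕ} {A : F⟦X⟧} (m : ℕ) (hm : (m : F) ≠ 0)
    (hA : Gap a w ((m : F⟦X⟧) * A)) : Gap a w A := by
  intro k h1 h2
  have h3 := hA k h1 h2
  have : (m : F⟦X⟧) = C (m : F) := by simp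
  rw [this, coeff_C_mul] at h3
  exact (mul_eq_zero.1 h3).resolve_left hm

lemma Gap.mulPoly {a w D : ℕ} {A : F⟦X⟧} (V : Polynomial F) (hV : V.natDegree ≤ D)
    (hA : Gap a w A) : Gap (a + D) w ((V : F⟦X⟧) * A) := by
  intro k h1 h2
  rw [coeff_mul]
  refine Finset.sum_eq_zero fun x hx => ?_
  rw [Finset.HasAntidiagonal.mem_antidiagonal] at hx
  rw [Polynomial.coeff_coe]
  by_cases h : x.1 ≤ D
  · rw [hA x.2 (by omega) (by omega), mul_zero]
  · rw [Polynomial.coeff_eq_zero_of_natDegree_lt (by omega), zero_mul]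

lemma Gap.poly {a w : ℕ} (V : Polynomial F) (hV : V.natDegree ≤ a) : Gap a w (V : F⟦X⟧) := by
  intro k h1 _
  rw [Polynomial.coeff_coe]
  exact Polynomial.coeff_eq_zero_of_natDegree_lt (by omega)

lemma Gap.XD {a w : ℕ} {A : F⟦X⟧} (hA : Gap a w A) : Gap a w (X * derivative F A) := by
  intro k h1 h2
  obtain ⟨k', rfl⟩ : ∃ k', k = k' + 1 := ⟨k - 1, by omega⟩
  rw [coeff_succ_X_mul, coeff_derivative, hA (k' + 1) h1 h2, zero_mul]

/-- `∑_k A_k x^(l-k) / (l-k)!` -/
noncomputable def QA (A : F⟦X⟧) (l : ℕ) : Polynomial F :=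
  ∑ k ∈ range (l + 1), Polynomial.C (coeff k A * (((l - k).factorial : ℕ) : F)⁻¹) * Polynomial.X ^ (l - k)

lemma QA_coeff (A : F⟦X⟧) (l j : ℕ) (hj : j ≤ l) :
    (QA A l).coeff j = coeff (l - j) A * ((j.factorial : ℕ) : F)⁻¹ := by
  unfold QA
  rw [Polynomial.finsetSum_coeff]
  rw [Finset.sum_eq_single (l - j)]
  · rw [Polynomial.coeff_C_mul, Polynomial.coeff_X_pow, if_pos (by omega), mul_one]
    congr 3
    congr 1
    omega
  · intro k hk hne
    rw [Finset.mem_range] at hk
    rw [Polynomial.coeff_C_mul, Polynomial.coeff_X_pow, if_neg (by omega), mul_zero]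
  · intro h
    exfalso
    exact h (Finset.mem_range.mpr (by omega))

lemma QA_natDegree_le (A : F⟦X⟧) (l r : ℕ) (hr : ∀ k < r, coeff k A = 0) :
    (QA A l).natDegree ≤ l - r := by
  unfold QA
  refine Polynomial.natDegree_sum_le_of_forall_le _ _ (fun k hk => ?_)
  by_cases h : k < r
  · rw [hr k h, zero_mul, Polynomial.C_0, zero_mul]
    simp
  · refine (Polynomial.natDegree_C_mul_X_pow_le _ _).trans (by omega)

end general

variable {p : ℕ} [hp : Fact p.Prime]

lemma QA_derivative (A : (ZMod p)⟦X⟧) {l : ℕ} (hl : l + 2 ≤ p) :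
    Polynomial.derivative (QA A (l + 1)) = QA A l := by
  unfold QA
  rw [Finset.sum_range_succ, map_add, map_sum]
  simp only [Nat.sub_self, pow_zero, mul_one, Polynomial.derivative_C, add_zero]
  refine Finset.sum_congr rfl (fun k hk => ?_)
  rw [Finset.mem_range] at hk
  rw [Polynomial.derivative_C_mul_X_pow]
  have h1 : l + 1 - k = (l - k) + 1 := by omega
  rw [h1, Nat.add_sub_cancel, Nat.factorial_succ]
  congr 2
  have h2 := nat_ne_zero (p := p) (k := l - k + 1) (by omega) (by omega)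
  have h3 := fact_ne_zero (p := p) (k := l - k) (by omega)
  push_cast at h2 ⊢
  field_simp

lemma QA_iter_derivative (A : (ZMod p)⟦X⟧) (w i : ℕ) (hi : i ≤ w) (hw : w + 1 ≤ p) :
    (Polynomial.derivative^[i]) (QA A w) = QA A (w - i) := by
  induction i with
  | zero => simp
  | succ i ih =>
    rw [Function.iterate_succ_apply', ih (by omega)]
    have h : w - i = (w - (i + 1)) + 1 := by omega
    rw [h, QA_derivative A (by omega)]

lemma coeff_Ex_pow (j : ℕ) : ∀ k, k < p → coeff k (Ex p ^ j) = (j : ZMod p) ^ k * ((k.factorial : ℕ) : ZMod p)⁻¹ := by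
  induction j with
  | zero =>
    intro k hk
    rw [pow_zero, coeff_one]
    split_ifs with h
    · subst h; simp
    · simp [h]
  | succ j ih =>
    intro k hk
    rw [pow_succ, coeff_mul]
    have h1 : ∀ x ∈ antidiagonal k, coeff x.1 (Ex p ^ j) * coeff x.2 (Ex p) =
        ((k.factorial : ℕ) : ZMod p)⁻¹ * ((j : ZMod p) ^ x.1 * 1 ^ x.2 * (k.choose x.1 : ℕ)) := by
      intro x hx
      rw [Finset.HasAntidiagonal.mem_antidiagonal] at hx
      rw [ih x.1 (by omega), coeff_Ex]
      have e1 := fact_ne_zero (p := p) (k := x.1) (by omega)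
      have e2 := fact_ne_zero (p := p) (k := x.2) (by omega)
      have e3 := fact_ne_zero (p := p) (k := k) hk
      have e4 : k.choose x.1 * x.1.factorial * x.2.factorial = k.factorial := by
        have := Nat.choose_mul_factorial_mul_factorial (n := k) (k := x.1) (by omega)
        rwa [show k - x.1 = x.2 by omega] at this
      have e5 : ((k.choose x.1 : ℕ) : ZMod p) * (x.1.factorial : ℕ) * (x.2.factorial : ℕ) =
          (k.factorial : ℕ) := by exact_mod_cast congrArg (fun n : ℕ => (n : ZMod p)) e4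
      have e6 : ((k.choose x.1 : ℕ) : ZMod p) ≠ 0 := by
        intro h; apply e3; rw [← e5, h]; ring
      rw [← e5, one_pow]
      field_simp
    rw [Finset.sum_congr rfl h1, ← Finset.mul_sum]
    have h2 := (Commute.all (j : ZMod p) 1).add_pow k
    rw [Finset.Nat.sum_antidiagonal_eq_sum_range_succ_mk, ← h2]
    push_cast
    ring

lemma QA_eval (A : (ZMod p)⟦X⟧) (l j : ℕ) (hl : l < p) :
    (QA A l).eval (j : ZMod p) = coeff l (A * Ex p ^ j) := by
  unfold QA
  rw [Polynomial.eval_finsetSum, coeff_mul, Finset.Nat.sum_antidiagonal_eq_sum_range_succ_mk]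
  refine Finset.sum_congr rfl fun k hk => ?_
  rw [Finset.mem_range] at hk
  rw [coeff_Ex_pow j (l - k) (by omega)]
  simp only [Polynomial.eval_mul, Polynomial.eval_C, Polynomial.eval_pow, Polynomial.eval_X]
  ring

lemma X_dvd_Gs : (X : (ZMod p)⟦X⟧) ∣ Gs p := by
  rw [X_dvd_iff, ← coeff_zero_eq_constantCoeff_apply, coeff_Gs]
  simp

/-- the Riccati equation `G^2 = t G' - (1 - t) G` for `G = t / (e^t + 1)` -/
lemma riccati (h2 : 2 ≤ p) : (X : (ZMod p)⟦X⟧) ^ (p - 1) ∣
    Gs p * Gs p - (X * derivative (ZMod p) (Gs p) - (1 - X) * Gs p) := by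
  have h1 := rec_G (p := p)
  have h1' : (X : (ZMod p)⟦X⟧) ^ (p - 2 + 1) ∣ (Ex p + 1) * Gs p - X := by
    rwa [show p - 2 + 1 = p - 1 by omega]
  have hd := X_pow_dvd_derivative _ _ h1'
  rw [map_sub, Derivation.leibniz, smul_eq_mul, smul_eq_mul, map_add] at hd
  have hX : derivative (ZMod p) (X : (ZMod p)⟦X⟧) = 1 := by
    ext m
    rw [coeff_derivative, coeff_X, coeff_one]
    by_cases hm : m = 0
    · subst hm; simp
    · rw [if_neg (by omega), if_neg hm, zero_mul]
  have h10 : derivative (ZMod p) (1 : (ZMod p)⟦X⟧) = 0 := Derivation.map_one_eq_zero _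
  rw [hX, h10, add_zero] at hd
  obtain ⟨u, hu⟩ := X_dvd_Gs (p := p)
  have hd2 : (X : (ZMod p)⟦X⟧) ^ (p - 1) ∣ Gs p * ((Ex p + 1) * derivative (ZMod p) (Gs p) +
      Gs p * derivative (ZMod p) (Ex p) - 1) := by
    rw [show p - 1 = (p - 2) + 1 by omega, pow_succ']
    conv_rhs => rw [hu]
    rw [mul_assoc]
    refine mul_dvd_mul_left _ (Dvd.dvd.mul_left ?_ _)
    rw [← hu]
    exact hd
  have he : Gs p * Gs p - (X * derivative (ZMod p) (Gs p) - (1 - X) * Gs p) =
      derivative (ZMod p) (Gs p) * ((Ex p + 1) * Gs p - X) + Gs p * ((Ex p + 1) * Gs p - X)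
      - Gs p * ((Ex p + 1) * derivative (ZMod p) (Gs p) +
      Gs p * derivative (ZMod p) (Ex p) - 1)
      + Gs p * Gs p * (derivative (ZMod p) (Ex p) - Ex p) := by
    ring
  rw [he]
  exact dvd_add (dvd_sub (dvd_add (Dvd.dvd.mul_left h1 _) (Dvd.dvd.mul_left h1 _)) hd2)
    (Dvd.dvd.mul_left dEx _)

/-- gaps of the powers of `V G` -/
lemma gap_pow {a w D : ℕ} (V : Polynomial (ZMod p)) (hV : V.natDegree ≤ D) (hw : w + 2 ≤ p)
    (h : Gap a w ((V : (ZMod p)⟦X⟧) * Gs p)) (m : ℕ) (hm : 1 ≤ m) (hmp : m ≤ p) :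
    Gap (a + (m - 1) * (D + 1)) w (((V : (ZMod p)⟦X⟧) * Gs p) ^ m) := by
  induction m with
  | zero => omega
  | succ m ih =>
    rcases Nat.eq_zero_or_pos m with h0 | h0
    · subst h0
      simpa using h
    have ih' := ih h0 (by omega)
    set S := (V : (ZMod p)⟦X⟧) * Gs p with hS
    have hm0 : ((m : ℕ) : ZMod p) ≠ 0 := nat_ne_zero h0 (by omega)
    refine Gap.of_natCast_mul m hm0 ?_
    have hric := riccati (p := p) (by omega)
    have hdS : derivative (ZMod p) (S ^ m) = (m : (ZMod p)⟦X⟧) * S ^ (m - 1) * derivative (ZMod p) S := by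
      rw [Derivation.leibniz_pow]
      simp only [smul_eq_mul, nsmul_eq_mul]
      ring
    have hdS1 : derivative (ZMod p) S = (V : (ZMod p)⟦X⟧) * derivative (ZMod p) (Gs p) +
        Gs p * ((Polynomial.derivative V : Polynomial (ZMod p)) : (ZMod p)⟦X⟧) := by
      rw [hS, Derivation.leibniz, derivative_coe]
      rfl
    have hSm : S ^ m = S ^ (m - 1) * S := by
      rw [← pow_succ, Nat.sub_add_cancel h0]
    have hcong : (X : (ZMod p)⟦X⟧) ^ (w + 1) ∣ (m : (ZMod p)⟦X⟧) * S ^ (m + 1) -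
        ((V : (ZMod p)⟦X⟧) * (X * derivative (ZMod p) (S ^ m)) -
          (m : (ZMod p)⟦X⟧) * (((Polynomial.X * Polynomial.derivative V : Polynomial (ZMod p)) : (ZMod p)⟦X⟧) * S ^ m) -
          (m : (ZMod p)⟦X⟧) * ((((1 - Polynomial.X) * V : Polynomial (ZMod p)) : (ZMod p)⟦X⟧) * S ^ m)) := by
      have e : (m : (ZMod p)⟦X⟧) * S ^ (m + 1) -
        ((V : (ZMod p)⟦X⟧) * (X * derivative (ZMod p) (S ^ m)) -
          (m : (ZMod p)⟦X⟧) * (((Polynomial.X * Polynomial.derivative V : Polynomial (ZMod p)) : (ZMod p)⟦X⟧) * S ^ m) -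
          (m : (ZMod p)⟦X⟧) * ((((1 - Polynomial.X) * V : Polynomial (ZMod p)) : (ZMod p)⟦X⟧) * S ^ m)) =
          (m : (ZMod p)⟦X⟧) * S ^ (m - 1) * (V : (ZMod p)⟦X⟧) ^ 2 *
            (Gs p * Gs p - (X * derivative (ZMod p) (Gs p) - (1 - X) * Gs p)) := by
        rw [hdS, hdS1, pow_succ, hSm]
        simp only [Polynomial.coe_mul, Polynomial.coe_sub, Polynomial.coe_one, Polynomial.coe_X]
        rw [hS]
        ring
      rw [e]
      exact Dvd.dvd.mul_left ((pow_dvd_pow _ (by omega)).trans hric) _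
    refine Gap.congr hcong ?_
    have hstep : a + (m + 1 - 1) * (D + 1) = a + (m - 1) * (D + 1) + (D + 1) := by
      obtain ⟨m', rfl⟩ : ∃ m', m = m' + 1 := ⟨m - 1, by omega⟩
      simp only [Nat.add_sub_cancel]
      ring
    rw [hstep]
    refine Gap.sub (Gap.sub ?_ ?_) ?_
    · exact (Gap.mulPoly V hV ih'.XD).mono (by omega)
    · refine Gap.natCast_mul _ ?_
      refine (Gap.mulPoly (D := D) _ ?_ ih').mono (by omega)
      by_cases hVd : V.natDegree = 0
      · rw [Polynomial.derivative_of_natDegree_zero hVd, mul_zero]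
        simp
      · refine Polynomial.natDegree_mul_le.trans ?_
        have h5 := Polynomial.natDegree_derivative_le V
        have h6 := Polynomial.natDegree_X_le (R := ZMod p)
        omega
    · refine Gap.natCast_mul _ (Gap.mulPoly (D := D + 1) _ ?_ ih')
      refine Polynomial.natDegree_mul_le.trans ?_
      have h5 : (1 - Polynomial.X : Polynomial (ZMod p)).natDegree ≤ 1 := by
        refine (Polynomial.natDegree_sub_le _ _).trans (max_le ?_ Polynomial.natDegree_X_le)
        simp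
      omega

/-- gaps of the `S^m e^{jt}`, `S = V G`, `j ≤ m` -/
lemma gap_pow_exp {a w D : ℕ} (V : Polynomial (ZMod p)) (hV : V.natDegree ≤ D) (ha : D + 1 ≤ a)
    (hw : w + 2 ≤ p) (h : Gap a w ((V : (ZMod p)⟦X⟧) * Gs p)) (j : ℕ) :
    ∀ m, 1 ≤ m → j ≤ m → m ≤ p →
      Gap (a + (m - 1) * (D + 1)) w (((V : (ZMod p)⟦X⟧) * Gs p) ^ m * Ex p ^ j) := by
  induction j with
  | zero =>
    intro m hm _ hmp
    rw [pow_zero, mul_one]
    exact gap_pow V hV hw h m hm hmp
  | succ j ih =>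
    intro m hm hjm hmp
    obtain ⟨m', rfl⟩ : ∃ m', m = m' + 1 := ⟨m - 1, by omega⟩
    set S := (V : (ZMod p)⟦X⟧) * Gs p with hS
    have h1 := rec_G (p := p)
    have hcong : (X : (ZMod p)⟦X⟧) ^ (w + 1) ∣ S ^ (m' + 1) * Ex p ^ (j + 1) -
        (((Polynomial.X * V : Polynomial (ZMod p)) : (ZMod p)⟦X⟧) * (S ^ m' * Ex p ^ j) -
          S ^ (m' + 1) * Ex p ^ j) := by
      have e : S ^ (m' + 1) * Ex p ^ (j + 1) -
        (((Polynomial.X * V : Polynomial (ZMod p)) : (ZMod p)⟦X⟧) * (S ^ m' * Ex p ^ j) -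
          S ^ (m' + 1) * Ex p ^ j) = S ^ m' * Ex p ^ j * (V : (ZMod p)⟦X⟧) * ((Ex p + 1) * Gs p - X) := by
        rw [pow_succ, pow_succ]
        simp only [Polynomial.coe_mul, Polynomial.coe_X]
        rw [hS]
        ring
      rw [e]
      exact Dvd.dvd.mul_left ((pow_dvd_pow _ (by omega)).trans h1) _
    refine Gap.congr hcong (Gap.sub ?_ (ih (m' + 1) (by omega) (by omega) hmp))
    have hXV : (Polynomial.X * V : Polynomial (ZMod p)).natDegree ≤ D + 1 := by
      refine Polynomial.natDegree_mul_le.trans ?_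
      have h6 := Polynomial.natDegree_X_le (R := ZMod p)
      omega
    rcases Nat.eq_zero_or_pos m' with h0 | h0
    · subst h0
      have hj : j = 0 := by omega
      subst hj
      simp only [pow_zero, mul_one]
      refine (Gap.poly _ (hXV.trans ?_))
      simpa using ha
    · have h3 := Gap.mulPoly _ hXV (ih m' h0 (by omega) (by omega))
      refine h3.mono ?_
      obtain ⟨m'', rfl⟩ : ∃ m'', m' = m'' + 1 := ⟨m' - 1, by omega⟩
      simp only [Nat.add_sub_cancel]
      nlinarith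

/-- **No long gap**: `V t / (e^t + 1)` has no long gap after the degree `a`. -/
theorem no_gap (a D N I w : ℕ) (V : Polynomial (ZMod p)) (hV0 : V ≠ 0) (hV : V.natDegree ≤ D)
    (ha : D + 1 ≤ a) (hI : a + N * D ≤ (N + 1) * (I + 1)) (hw : w = a + N * (D + 1) + I + 1)
    (hwp : w + 2 ≤ p) (h : Gap a w ((V : (ZMod p)⟦X⟧) * Gs p)) : False := by
  have hp3 : 3 ≤ p := by omega
  have h2 : (2 : ZMod p) ≠ 0 := by
    have := nat_ne_zero (p := p) (k := 2) (by omega) (by omega)
    exact_mod_cast this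
  have hND : N ≤ N * (D + 1) := Nat.le_mul_of_pos_right _ (by omega)
  set S := (V : (ZMod p)⟦X⟧) * Gs p with hS
  set A := S ^ (N + 1) with hA
  set Q := QA A w with hQ
  -- the order of `V` and of `A`
  obtain ⟨s, V1, hV1, hV1c⟩ : ∃ (s : ℕ) (V1 : Polynomial (ZMod p)), V = Polynomial.X ^ s * V1 ∧
      V1.coeff 0 ≠ 0 := by
    obtain ⟨V1, hV1, hnd⟩ := Polynomial.exists_eq_pow_rootMultiplicity_mul_and_not_dvd V hV0 0
    refine ⟨V.rootMultiplicity 0, V1, by simpa using hV1, ?_⟩
    intro hc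
    apply hnd
    rw [Polynomial.C_0, sub_zero]
    exact Polynomial.X_dvd_iff.2 hc
  have hsD : s ≤ D := by
    have h5 : V.natDegree = s + V1.natDegree := by
      rw [hV1, Polynomial.natDegree_mul (pow_ne_zero _ Polynomial.X_ne_zero)
        (by intro h0; rw [h0] at hV1c; simp at hV1c), Polynomial.natDegree_X_pow]
    omega
  obtain ⟨G1, hG1⟩ := X_dvd_Gs (p := p)
  have hG1c : constantCoeff G1 ≠ 0 := by
    have h5 : coeff 1 (Gs p) = (2 : ZMod p)⁻¹ := by
      rw [coeff_Gs, cc_one hp3]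
      ring
    rw [hG1] at h5
    have h6 : coeff (0 + 1) (X * G1) = (2 : ZMod p)⁻¹ := h5
    rw [coeff_succ_X_mul, coeff_zero_eq_constantCoeff_apply] at h6
    rw [h6]
    exact inv_ne_zero h2
  have hAfac : A = X ^ ((N + 1) * (s + 1)) * ((V1 : (ZMod p)⟦X⟧) * G1) ^ (N + 1) := by
    rw [hA, hS, hV1, Polynomial.coe_mul, Polynomial.coe_pow, Polynomial.coe_X]
    conv_lhs => rw [hG1]
    rw [mul_comm (N + 1) (s + 1), pow_mul, ← mul_pow]
    congr 1
    ring
  have hAlow : ∀ k < (N + 1) * (s + 1), coeff k A = 0 := by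
    intro k hk
    rw [hAfac, coeff_X_pow_mul', if_neg (by omega)]
  have hAtop : coeff ((N + 1) * (s + 1)) A ≠ 0 := by
    rw [hAfac, coeff_X_pow_mul', if_pos le_rfl, Nat.sub_self, coeff_zero_eq_constantCoeff_apply,
      map_pow, map_mul]
    refine pow_ne_zero _ (mul_ne_zero ?_ hG1c)
    rw [← coeff_zero_eq_constantCoeff_apply, Polynomial.coeff_coe]
    exact hV1c
  have hsw : (N + 1) * (s + 1) ≤ w := by
    have h5 : (N + 1) * (s + 1) ≤ (N + 1) * (D + 1) := Nat.mul_le_mul_left _ (by omega)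
    have h6 : (N + 1) * (D + 1) = N * (D + 1) + (D + 1) := by ring
    omega
  have hQ0 : Q ≠ 0 := by
    intro h0
    have h5 := QA_coeff A w (w - (N + 1) * (s + 1)) (by omega)
    rw [← hQ, h0, Polynomial.coeff_zero, show w - (w - (N + 1) * (s + 1)) = (N + 1) * (s + 1) by omega] at h5
    exact mul_ne_zero hAtop (inv_ne_zero (fact_ne_zero (by omega))) h5.symm
  have hQd : Q.natDegree ≤ w - (N + 1) := by
    refine (QA_natDegree_le A w _ hAlow).trans ?_
    have h5 : N + 1 ≤ (N + 1) * (s + 1) := Nat.le_mul_of_pos_right _ (by omega)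
    omega
  -- the zeros
  set Z : Finset (ZMod p) := (range (N + 2)).image (fun j : ℕ => (j : ZMod p)) with hZ
  have hZcard : Z.card = N + 2 := by
    rw [hZ, Finset.card_image_of_injOn, Finset.card_range]
    intro x hx y hy hxy
    rw [Finset.coe_range, Set.mem_Iio] at hx hy
    have hab' : (x : ZMod p) = (y : ZMod p) := hxy
    rw [ZMod.natCast_eq_natCast_iff'] at hab'
    rwa [Nat.mod_eq_of_lt (by omega), Nat.mod_eq_of_lt (by omega)] at hab'
  have hmult : ∀ z ∈ Z, I < Q.rootMultiplicity z := by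
    intro z hz
    rw [hZ, Finset.mem_image] at hz
    obtain ⟨j, hj, rfl⟩ := hz
    rw [Finset.mem_range] at hj
    refine Polynomial.lt_rootMultiplicity_of_isRoot_iterate_derivative_of_mem_nonZeroDivisors hQ0 ?_ ?_
    · intro m hm
      rw [hQ, QA_iter_derivative A w m (by omega) (by omega), Polynomial.IsRoot.def,
        QA_eval A (w - m) j (by omega)]
      have h5 := gap_pow_exp V hV ha (by omega) h j (N + 1) (by omega) (by omega) (by omega)
      exact h5 (w - m) (by simp only [Nat.add_sub_cancel]; omega) (by omega)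
    · exact mem_nonZeroDivisors_of_ne_zero (fact_ne_zero (by omega))
  have hcount : (I + 1) * Z.card ≤ Q.roots.card := by
    calc (I + 1) * Z.card = ∑ z ∈ Z, (I + 1) := by rw [Finset.sum_const, smul_eq_mul, mul_comm]
      _ ≤ ∑ z ∈ Z, Q.roots.count z := by
          refine Finset.sum_le_sum (fun z hz => ?_)
          rw [Polynomial.count_roots]
          exact hmult z hz
      _ ≤ Q.roots.card := by
          have hsub : Z ⊆ Q.roots.toFinset := by
            intro z hz
            rw [Multiset.mem_toFinset, ← Multiset.count_pos, Polynomial.count_roots]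
            have := hmult z hz
            omega
          calc ∑ z ∈ Z, Q.roots.count z ≤ ∑ z ∈ Q.roots.toFinset, Q.roots.count z :=
                Finset.sum_le_sum_of_subset hsub
            _ = Q.roots.card := Multiset.toFinset_sum_count_eq _
  have hdeg : Q.roots.card ≤ w - (N + 1) := (Polynomial.card_roots' Q).trans hQd
  rw [hZcard] at hcount
  have h5 : (I + 1) * (N + 2) = (N + 1) * (I + 1) + (I + 1) := by ring
  have h6 : N * (D + 1) = N * D + N := by ring
  omega

end Pool.Agent.Q140.REG
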