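import Pool.Agent.Q140.REG.Gap

/-!
# Hankel matrices of Bernoulli numbers in short windows, modulo `p`
-/

set_option autoImplicit false

namespace Pool.Agent.Q140.REG

open Finset PowerSeries Pool.Agent.H332R2 Pool.Agent.Q39.HB

variable {p : ℕ} [hp : Fact p.Prime]

/-- **Full column rank in short windows.** -/
theorem window (T n R M K : ℕ) (hT : 2 ≤ T) (hn : 1 ≤ n) (hMK : 2 * (T - 1) ≤ M * K)
    (hR : M * (2 * n - 1) + K ≤ 2 * R + 2) (hpR : 2 * (T + n + R) ≤ p + 1)
    (v : Fin n → ZMod p) (hv : ∀ i < R, ∑ j : Fin n, v j * gg p (T + i + j) = 0) : v = 0 := by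
  have h3 : 3 ≤ p := by omega
  have hM1 : 1 ≤ M := by
    rcases Nat.eq_zero_or_pos M with h | h
    · subst h; omega
    · exact h
  have hK1 : 1 ≤ K := by
    rcases Nat.eq_zero_or_pos K with h | h
    · subst h; omega
    · exact h
  have h2 : (2 : ZMod p) ≠ 0 := by
    have := nat_ne_zero (p := p) (k := 2) (by omega) (by omega)
    exact_mod_cast this
  set V : Polynomial (ZMod p) := ∑ j : Fin n, Polynomial.C (v j) * Polynomial.X ^ (2 * (n - 1 - (j : ℕ)))
    with hV
  have hVcoe : (V : (ZMod p)⟦X⟧) = ∑ j : Fin n, C (v j) * X ^ (2 * (n - 1 - (j : ℕ))) := by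
    rw [hV, ← Polynomial.coeToPowerSeries.ringHom_apply, map_sum]
    refine Finset.sum_congr rfl fun j _ => ?_
    rw [map_mul, map_pow]
    simp
  have hVd : V.natDegree ≤ 2 * (n - 1) := by
    rw [hV]
    refine Polynomial.natDegree_sum_le_of_forall_le _ _ fun j _ => ?_
    refine (Polynomial.natDegree_C_mul_X_pow_le _ _).trans (by omega)
  set W : (ZMod p)⟦X⟧ := (V : (ZMod p)⟦X⟧) * F2 p with hW
  have hWc : ∀ m, coeff m W = ∑ j : Fin n, v j *
      (if 2 * (n - 1 - (j : ℕ)) ≤ m then coeff (m - 2 * (n - 1 - (j : ℕ))) (F2 p) else 0) := by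
    intro m
    rw [hW, hVcoe, Finset.sum_mul, map_sum]
    refine Finset.sum_congr rfl fun j _ => ?_
    rw [mul_assoc, coeff_C_mul, coeff_X_pow_mul']
  have hWodd : ∀ s, coeff (2 * s + 1) W = 0 := by
    intro s
    rw [hWc]
    refine Finset.sum_eq_zero fun j _ => ?_
    split_ifs with h
    · rw [show 2 * s + 1 - 2 * (n - 1 - (j : ℕ)) = 2 * (s - (n - 1 - (j : ℕ))) + 1 by omega,
        coeff_F2_odd h3, mul_zero]
    · rw [mul_zero]
  have hWeven : ∀ s, T + n - 1 ≤ s → s < T + n - 1 + R → coeff (2 * s) W = 0 := by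
    intro s hs1 hs2
    have h1 := hv (s - (T + n - 1)) (by omega)
    rw [hWc, ← h1]
    refine Finset.sum_congr rfl fun j _ => ?_
    have hj := j.2
    rw [if_pos (by omega), show 2 * s - 2 * (n - 1 - (j : ℕ)) =
      2 * (T + (s - (T + n - 1)) + (j : ℕ)) by omega, coeff_F2_even]
  by_contra hv0
  have hV0 : V ≠ 0 := by
    intro hV0
    apply hv0
    funext j
    have h5 : V.coeff (2 * (n - 1 - (j : ℕ))) = v j := by
      rw [hV, Polynomial.finsetSum_coeff, Finset.sum_eq_single j]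
      · rw [Polynomial.coeff_C_mul, Polynomial.coeff_X_pow, if_pos rfl, mul_one]
      · intro i _ hij
        rw [Polynomial.coeff_C_mul, Polynomial.coeff_X_pow, if_neg, mul_zero]
        intro h
        apply hij
        have hi := i.2
        have hj := j.2
        ext
        omega
      · intro h; exact absurd (Finset.mem_univ _) h
    rw [← h5, hV0]
    simp
  obtain ⟨M', rfl⟩ : ∃ M', M = M' + 1 := ⟨M - 1, by omega⟩
  obtain ⟨n', rfl⟩ : ∃ n', n = n' + 1 := ⟨n - 1, by omega⟩
  obtain ⟨T', rfl⟩ : ∃ T', T = T' + 2 := ⟨T - 2, by omega⟩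
  obtain ⟨K', rfl⟩ : ∃ K', K = K' + 1 := ⟨K - 1, by omega⟩
  have e1 : 2 * (n' + 1) - 1 = 2 * n' + 1 := by omega
  rw [e1] at hR
  have hR' : M' * (2 * n' + 1) + 2 * n' + K' ≤ 2 * R := by nlinarith
  have hMK' : 2 * T' + 2 ≤ (M' + 1) * (K' + 1) := by
    have : 2 * (T' + 2 - 1) = 2 * T' + 2 := by omega
    omega
  set w := 2 * (T' + n' + 1) + M' * (2 * n' + 1) + (2 * n' + K') + 1 with hw
  refine no_gap (p := p) (2 * (T' + n' + 1)) (2 * n') M' (2 * n' + K') w V hV0 (by
    simpa using hVd) (by omega) ?_ hw (by omega) ?_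
  · nlinarith
  · intro k hk1 hk2
    have hGs : (V : (ZMod p)⟦X⟧) * Gs p = W + (V : (ZMod p)⟦X⟧) * (C (2⁻¹ : ZMod p) * X) := by
      rw [hW]
      unfold F2
      ring
    have hz : coeff k ((V : (ZMod p)⟦X⟧) * (C (2⁻¹ : ZMod p) * X)) = 0 := by
      have e2 : (V : (ZMod p)⟦X⟧) * (C (2⁻¹ : ZMod p) * X) =
          ((V * (Polynomial.C (2⁻¹ : ZMod p) * Polynomial.X) : Polynomial (ZMod p)) : (ZMod p)⟦X⟧) := by
        simp
      rw [e2, Polynomial.coeff_coe]
      refine Polynomial.coeff_eq_zero_of_natDegree_lt (lt_of_le_of_lt Polynomial.natDegree_mul_le ?_)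
      have h4 : (Polynomial.C (2⁻¹ : ZMod p) * Polynomial.X).natDegree ≤ 1 :=
        (Polynomial.natDegree_C_mul_le _ _).trans Polynomial.natDegree_X_le
      have h5 : V.natDegree ≤ 2 * n' := by simpa using hVd
      omega
    rw [hGs, map_add, hz, add_zero]
    rcases Nat.even_or_odd' k with ⟨s, hs | hs⟩
    · rw [hs]
      exact hWeven s (by omega) (by omega)
    · rw [hs]; exact hWodd s

/-- Hall's theorem for a matrix with independent columns -/
lemma sdr {F : Type} [Field F] {n R : ℕ} (e : Fin R → Fin n → F)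
    (h : ∀ v : Fin n → F, (∀ i, ∑ j, v j * e i j = 0) → v = 0) :
    ∃ σ : Fin n → Fin R, Function.Injective σ ∧ ∀ j, e (σ j) j ≠ 0 := by
  classical
  have key := (Finset.all_card_le_biUnion_card_iff_exists_injective
    (fun j : Fin n => (Finset.univ : Finset (Fin R)).filter (fun i => e i j ≠ 0))).1 ?_
  · obtain ⟨σ, hσ, hσ2⟩ := key
    exact ⟨σ, hσ, fun j => (Finset.mem_filter.1 (hσ2 j)).2⟩
  · intro s
    by_contra hlt
    rw [not_le] at hlt
    set U := s.biUnion (fun j : Fin n => (Finset.univ : Finset (Fin R)).filter (fun i => e i j ≠ 0))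
      with hU
    let φ : (s → F) →ₗ[F] (U → F) :=
      { toFun := fun v i => ∑ j : s, v j * e i j
        map_add' := by
          intro v w
          funext i
          simp only [Pi.add_apply, add_mul, Finset.sum_add_distrib]
        map_smul' := by
          intro c v
          funext i
          simp only [Pi.smul_apply, smul_eq_mul, RingHom.id_apply, Finset.mul_sum, mul_assoc] }
    have hker : LinearMap.ker φ ≠ ⊥ := by
      apply LinearMap.ker_ne_bot_of_finrank_lt
      rw [Module.finrank_fintype_fun_eq_card, Module.finrank_fintype_fun_eq_card, Fintype.card_coe,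
        Fintype.card_coe]
      exact hlt
    obtain ⟨v, hv, hv0⟩ := Submodule.exists_mem_ne_zero_of_ne_bot hker
    apply hv0
    have hsum : ∀ (g : Fin n → F), ∑ j, (if hj : j ∈ s then v ⟨j, hj⟩ else 0) * g j =
        ∑ j : s, v j * g j := by
      intro g
      rw [← Finset.sum_subset (Finset.subset_univ s)]
      · rw [← Finset.sum_coe_sort s]
        refine Finset.sum_congr rfl fun j _ => ?_
        rw [dif_pos j.2]
      · intro j _ hj
        rw [dif_neg hj, zero_mul]
    have h1 := h (fun j => if hj : j ∈ s then v ⟨j, hj⟩ else 0) ?_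
    · funext j
      have := congrFun h1 j
      simpa using this
    · intro i
      rw [hsum]
      by_cases hi : i ∈ U
      · have := congrFun (LinearMap.mem_ker.1 hv) ⟨i, hi⟩
        exact this
      · refine Finset.sum_eq_zero fun j _ => ?_
        have : e i j = 0 := by
          by_contra hne
          apply hi
          rw [hU, Finset.mem_biUnion]
          exact ⟨j, j.2, Finset.mem_filter.2 ⟨Finset.mem_univ _, hne⟩⟩
        rw [this, mul_zero]

/-- the matching -/
theorem matching (T n R M K : ℕ) (hT : 2 ≤ T) (hn : 1 ≤ n) (hMK : 2 * (T - 1) ≤ M * K)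
    (hR : M * (2 * n - 1) + K ≤ 2 * R + 2) (hpR : 2 * (T + n + R) ≤ p + 1) :
    ∃ σ : Fin n → Fin R, Function.Injective σ ∧ ∀ j, gg p (T + (σ j : ℕ) + (j : ℕ)) ≠ 0 := by
  refine sdr (fun (i : Fin R) (j : Fin n) => gg p (T + (i : ℕ) + (j : ℕ))) ?_
  intro v hv
  exact window T n R M K hT hn hMK hR hpR v fun i hi => hv ⟨i, hi⟩

/-- the rational number `(1 - 4^k) B_{2k} / (2k)!` modulo `p` -/
lemma gg_cast {k : ℕ} (hk : 2 * k + 2 ≤ p) (h3 : 3 ≤ p) :
    (((1 - 4 ^ k) * bernoulli (2 * k) / ((2 * k).factorial : ℚ) : ℚ) : ZMod p) = gg p k := by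
  unfold gg cc
  have h1 : ((((1 - 4 ^ k : ℚ)).den : ℕ) : ZMod p) ≠ 0 := by
    have : (1 - 4 ^ k : ℚ) = ((1 - 4 ^ k : ℤ) : ℚ) := by push_cast; ring
    rw [this, Rat.den_intCast]
    simp
  have h2 := bern_den_ne (p := p) (k := 2 * k) hk h3
  have h4 : ((((1 - 4 ^ k) * bernoulli (2 * k) : ℚ).den : ℕ) : ZMod p) ≠ 0 := den_mul_ne h1 h2
  have h5 := fact_ne_zero (p := p) (k := 2 * k) (by omega)
  rw [div_eq_mul_inv, Rat.cast_mul_of_ne_zero h4, Rat.cast_mul_of_ne_zero h1 h2]
  · have e1 : ((1 - 4 ^ k : ℚ) : ZMod p) = 1 - 4 ^ k := by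
      have : (1 - 4 ^ k : ℚ) = ((1 - 4 ^ k : ℤ) : ℚ) := by push_cast; ring
      rw [this, Rat.cast_intCast]
      push_cast
      ring
    have e2 : ((((2 * k).factorial : ℚ)⁻¹ : ℚ) : ZMod p) = (((2 * k).factorial : ℕ) : ZMod p)⁻¹ := by
      rw [Rat.cast_inv_of_ne_zero]
      · rw [Rat.cast_natCast]
      · simpa using h5
    rw [e1, e2]
    ring
  · have : (((2 * k).factorial : ℚ)⁻¹).den = (2 * k).factorial := by
      rw [Rat.inv_natCast_den]
      rw [if_neg (Nat.factorial_ne_zero _)]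
    rw [this]
    exact h5

end Pool.Agent.Q140.REG
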